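import Mathlib

open MeasureTheory Set Filter
open scoped ENNReal Topology Pointwise

namespace Pool.Agent.Results.MP_1cd8c4_pr.EqualShapesNoCoexistence

/-! ### Definitions used in the statement (dimension `d = 1`) -/

/-- A reproduction law in dimension `d = 1`: an offspring law `mu` on `{1, 2, ...}` with mean `> 1`
and a displacement law `nu` on `ℤ` whose support is finite and contains the nearest
neighbours `1` and `-1` of the origin. -/
structure Law where
  mu : PMF ℕ
  nu : PMF ℤ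
  mu_zero : mu 0 = 0
  one_lt_mean : 1 < ∑' k : ℕ, mu k * (k : ℝ≥0∞)
  finite_support : nu.support.Finite
  one_mem : (1 : ℤ) ∈ nu.support
  neg_one_mem : (-1 : ℤ) ∈ nu.support

/-- An environment. A particle is labelled by the list of the birth ranks `0, 1, 2, ...` along its
ancestral line (oldest ancestor first, the initial particle is `[]`); the environment sends a label
`v` to the pair (number of children of `v`, displacement of `v` from its parent). -/
abbrev Env := List ℕ → ℕ × ℤ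

/-- The environment seen from the child of rank `i` of the initial particle. -/
def sub (ω : Env) (i : ℕ) : Env := fun v => ω (i :: v)

/-- The particle with label `v` is born: each birth rank along its ancestral line is smaller than
the number of children of the corresponding parent. -/
def Alive : Env → List ℕ → Prop
  | _, [] => True
  | ω, i :: v => i < (ω []).1 ∧ Alive (sub ω i) v

/-- The displacement of the particle with label `v` from the initial particle: the sum of the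
displacements along its ancestral line. -/
def pos : Env → List ℕ → ℤ
  | _, [] => 0
  | ω, i :: v => (ω [i]).2 + pos (sub ω i) v

/-- The law of the environment: all numbers of children are `mu`-distributed, all displacements
are `nu`-distributed, and all these draws are independent. -/
noncomputable def Law.meas (R : Law) : Measure Env :=
  Measure.infinitePi (fun _ : List ℕ => R.mu.toMeasure.prod R.nu.toMeasure)

/-- `D(n)`: the sites that have received a particle by time `n`, starting from the origin. -/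
def visited (ω : Env) (n : ℕ) : Set ℤ := {x | ∃ v, Alive ω v ∧ v.length ≤ n ∧ pos ω v = x}

/-- The union of the cells `x + (-1/2, 1/2]` over `x ∈ D`. -/
def fat (D : Set ℤ) : Set ℝ := ⋃ x ∈ D, Ioc ((x : ℝ) - 1 / 2) ((x : ℝ) + 1 / 2)

/-- `A` is the asymptotic shape of the law `R`. -/
def IsShape (R : Law) (A : Set ℝ) : Prop :=
  Convex ℝ A ∧ IsCompact A ∧ (0 : ℝ) ∈ interior A ∧
  ∀ᵐ ω ∂(R.meas), ∀ ε ∈ Ioo (0 : ℝ) 1, ∀ᶠ n : ℕ in atTop,
    (1 - ε) • A ⊆ ((n : ℝ)⁻¹) • fat (visited ω n) ∧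
    ((n : ℝ)⁻¹) • fat (visited ω n) ⊆ (1 + ε) • A

/-- The first time at which a particle is placed at `x`, when the initial particle sits at `x0`. -/
noncomputable def arrival (x0 : ℤ) (ω : Env) (x : ℤ) : ℕ∞ :=
  ⨅ (v : List ℕ) (_ : Alive ω v ∧ x0 + pos ω v = x), (v.length : ℕ∞)

/-- The law of the two-type process at `p = 0`: independent red (first component) and blue (second
component) branching random walks. -/
noncomputable def P0 (Rr Rb : Law) : Measure (Env × Env) := Rr.meas.prod Rb.meas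

/-- The sites coloured red. Red starts at `0`, blue starts at `1`; `tie x` says that a simultaneous
first arrival of both colours at `x` is resolved in favour of red. -/
def redSites (tie : ℤ → Prop) (ω : Env × Env) : Set ℤ :=
  {x | arrival 0 ω.1 x < arrival 1 ω.2 x ∨
    (arrival 0 ω.1 x = arrival 1 ω.2 x ∧ arrival 0 ω.1 x ≠ ⊤ ∧ tie x)}

/-- The sites coloured blue. -/
def blueSites (tie : ℤ → Prop) (ω : Env × Env) : Set ℤ :=
  {x | arrival 1 ω.2 x < arrival 0 ω.1 x ∨
    (arrival 0 ω.1 x = arrival 1 ω.2 x ∧ arrival 0 ω.1 x ≠ ⊤ ∧ ¬ tie x)}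

/-! ### the measure -/

noncomputable abbrev PP (ρ : Measure (ℕ × ℤ)) : Measure Env :=
  Measure.infinitePi (fun _ : List ℕ => ρ)

noncomputable abbrev QQ (ρ : Measure (ℕ × ℤ)) : Measure (ℕ → Env) :=
  Measure.infinitePi (fun _ : ℕ => PP ρ)

def glue (p : (ℕ × ℤ) × (ℕ → Env)) : Env
  | [] => p.1
  | i :: v => p.2 i v

theorem measurable_glue : Measurable glue := by
  refine measurable_pi_lambda _ (fun v => ?_)
  cases v with
  | nil => exact measurable_fst
  | cons i v => exact (measurable_pi_apply v).comp ((measurable_pi_apply i).comp measurable_snd)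

theorem prod_split (s : Finset (List ℕ)) (f : List ℕ → ℝ≥0∞) :
    ∏ v ∈ s, f v = (if [] ∈ s then f [] else 1) *
      ∏ i ∈ s.image (fun v => v.headD 0),
        ∏ v ∈ s.preimage (List.cons i) (fun _ _ _ _ h => List.cons_injective h), f (i :: v) := by
  classical
  rw [← Finset.prod_filter_mul_prod_filter_not s (fun v => v = [])]
  congr 1
  · rw [Finset.prod_filter, Finset.prod_ite_eq']
  · rw [Finset.prod_sigma']
    refine Finset.prod_bij' (fun v _ => ⟨v.headD 0, v.tail⟩) (fun p _ => p.1 :: p.2) ?_ ?_ ?_ ?_ ?_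
    · intro v hv
      rw [Finset.mem_filter] at hv
      obtain ⟨hv, hne⟩ := hv
      cases v with
      | nil => exact absurd rfl hne
      | cons i v =>
        rw [Finset.mem_sigma]
        refine ⟨Finset.mem_image.2 ⟨i :: v, hv, rfl⟩, ?_⟩
        simpa using hv
    · rintro ⟨i, v⟩ h
      rw [Finset.mem_sigma] at h
      simpa using h.2
    · intro v hv
      rw [Finset.mem_filter] at hv
      cases v with
      | nil => exact absurd rfl hv.2
      | cons i v => rfl
    · rintro ⟨i, v⟩ h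
      rfl
    · intro v hv
      rw [Finset.mem_filter] at hv
      cases v with
      | nil => exact absurd rfl hv.2
      | cons i v => rfl

theorem map_glue (ρ : Measure (ℕ × ℤ)) [IsProbabilityMeasure ρ] :
    (ρ.prod (QQ ρ)).map glue = PP ρ := by
  classical
  refine Measure.eq_infinitePi _ ?_
  intro s t ht
  rw [Measure.map_apply measurable_glue (MeasurableSet.pi s.countable_toSet (fun i _ => ht i))]
  have hpre : glue ⁻¹' (Set.pi s t) = {a : ℕ × ℤ | [] ∈ s → a ∈ t []} ×ˢ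
      Set.pi (s.image (fun v => v.headD 0)) (fun i =>
        Set.pi (s.preimage (List.cons i) (fun _ _ _ _ h => List.cons_injective h))
          (fun v => t (i :: v))) := by
    ext ⟨a, f⟩
    simp only [Set.mem_preimage, Set.mem_pi, Finset.mem_coe, Set.mem_prod, Set.mem_ofPred_eq,
      Finset.mem_image, Finset.mem_preimage]
    constructor
    · intro h
      refine ⟨fun h0 => h [] h0, ?_⟩
      intro i _ v hv
      exact h (i :: v) hv
    · rintro ⟨h0, h1⟩ v hv
      cases v with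
      | nil => exact h0 hv
      | cons i v => exact h1 i ⟨i :: v, hv, rfl⟩ v hv
  rw [hpre, Measure.prod_prod, Measure.infinitePi_pi, prod_split s (fun v => ρ (t v))]
  · congr 1
    · split_ifs with h
      · simp [h]
      · simp [h]
    · refine Finset.prod_congr rfl (fun i _ => ?_)
      rw [Measure.infinitePi_pi]
      intro v _
      exact ht _
  · intro i _
    exact MeasurableSet.pi (Finset.countable_toSet _) (fun v _ => ht _)


theorem measurable_sub : Measurable sub :=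
  measurable_pi_lambda _ (fun i => measurable_pi_lambda _ (fun v => measurable_pi_apply (i :: v)))

theorem sub_glue (p : (ℕ × ℤ) × (ℕ → Env)) : sub (glue p) = p.2 := rfl

theorem glue_nil (p : (ℕ × ℤ) × (ℕ → Env)) : glue p [] = p.1 := rfl

/-- root and subtrees are independent -/
theorem PP_root_sub (ρ : Measure (ℕ × ℤ)) [IsProbabilityMeasure ρ] {U : Set (ℕ × ℤ)}
    (hU : MeasurableSet U) {A : Set (ℕ → Env)} (hA : MeasurableSet A) :
    PP ρ {ω | ω [] ∈ U ∧ sub ω ∈ A} = ρ U * QQ ρ A := by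
  have hm : MeasurableSet {ω : Env | ω [] ∈ U ∧ sub ω ∈ A} :=
    ((measurable_pi_apply ([] : List ℕ)) hU).inter (measurable_sub hA)
  rw [← map_glue ρ, Measure.map_apply measurable_glue hm]
  have : glue ⁻¹' {ω : Env | ω [] ∈ U ∧ sub ω ∈ A} = U ×ˢ A := by
    ext ⟨a, f⟩
    simp only [Set.mem_preimage, Set.mem_ofPred_eq, sub_glue, glue_nil, Set.mem_prod]
  rw [this, Measure.prod_prod]

theorem PP_sub (ρ : Measure (ℕ × ℤ)) [IsProbabilityMeasure ρ]
    {A : Set (ℕ → Env)} (hA : MeasurableSet A) :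
    PP ρ (sub ⁻¹' A) = QQ ρ A := by
  have := PP_root_sub ρ MeasurableSet.univ hA
  simp only [Set.mem_univ, true_and, measure_univ, one_mul] at this
  exact this

theorem QQ_all (ρ : Measure (ℕ × ℤ)) [IsProbabilityMeasure ρ] (m : ℕ)
    {C : Set Env} (hC : MeasurableSet C) :
    QQ ρ {f | ∀ i < m, f i ∈ C} = (PP ρ C) ^ m := by
  have : {f : ℕ → Env | ∀ i < m, f i ∈ C} = Set.pi (Finset.range m) (fun _ => C) := by
    ext f
    simp [Set.mem_pi]
  rw [this, Measure.infinitePi_pi]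
  · simp
  · intro i _
    exact hC

theorem measurableSet_all (m : ℕ) {C : Set Env} (hC : MeasurableSet C) :
    MeasurableSet {f : ℕ → Env | ∀ i < m, f i ∈ C} := by
  have : {f : ℕ → Env | ∀ i < m, f i ∈ C} = Set.pi (Finset.range m) (fun _ => C) := by
    ext f
    simp [Set.mem_pi]
  rw [this]
  exact MeasurableSet.pi (Finset.countable_toSet _) (fun _ _ => hC)

/-- zero-one law -/
theorem zero_one (ρ : Measure (ℕ × ℤ)) [IsProbabilityMeasure ρ] (m : ℕ) (hm : 2 ≤ m)
    {E : Set Env} (hE : MeasurableSet E) (hsub : ∀ ω : Env, ∀ i < m, sub ω i ∈ E → ω ∈ E)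
    (hpos : PP ρ E ≠ 0) : ∀ᵐ ω ∂(PP ρ), ω ∈ E := by
  have h1 : PP ρ Eᶜ ≤ (PP ρ Eᶜ) ^ m := by
    rw [← QQ_all ρ m hE.compl, ← PP_sub ρ (measurableSet_all m hE.compl)]
    refine measure_mono ?_
    intro ω hω i hi hs
    exact hω (hsub ω i hi hs)
  have h2 : PP ρ Eᶜ < 1 := by
    rw [prob_compl_eq_one_sub hE]
    exact ENNReal.sub_lt_self (by simp) (by simp) hpos
  have h3 : PP ρ Eᶜ = 0 := by
    by_contra hne
    have h4 : (PP ρ Eᶜ) ^ m ≤ (PP ρ Eᶜ) ^ 2 := pow_le_pow_right_of_le_one' h2.le hm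
    have h5 : (PP ρ Eᶜ) ^ 2 < PP ρ Eᶜ := by
      rw [pow_two]
      calc PP ρ Eᶜ * PP ρ Eᶜ < PP ρ Eᶜ * 1 := by
            refine (ENNReal.mul_lt_mul_iff_right hne (measure_ne_top _ _)).2 h2
        _ = PP ρ Eᶜ := mul_one _
    exact absurd (h1.trans h4) (not_le.2 h5)
  exact measure_eq_zero_iff_ae_notMem.1 h3 |>.mono (fun ω h => not_not.1 h)


/-! ### recursive events -/

section events

variable {S : Type} (next : S → Bool → Option S) (m : ℕ) (σ : ℤ)

def child (σ : ℤ) (A B : Set (ℕ → Env)) : Set Env :=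
  {ω | ((ω []).2 = σ ∧ sub ω ∈ A) ∨ ((ω []).2 = -σ ∧ sub ω ∈ B)}

def evS : ℕ → Option S → Set (ℕ → Env)
  | _, none => ∅
  | 0, some _ => Set.univ
  | n + 1, some s => {f | ∃ i < m, f i ∈ child σ (evS n (next s true)) (evS n (next s false))}

theorem measurableSet_root (a : ℤ) : MeasurableSet {ω : Env | (ω []).2 = a} :=
  (measurable_snd.comp (measurable_pi_apply ([] : List ℕ))) (measurableSet_singleton a)

theorem measurableSet_child {A B : Set (ℕ → Env)} (hA : MeasurableSet A) (hB : MeasurableSet B) :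
    MeasurableSet (child σ A B) :=
  ((measurableSet_root σ).inter (measurable_sub hA)).union
    ((measurableSet_root (-σ)).inter (measurable_sub hB))

theorem measurableSet_ex (m : ℕ) {C : Set Env} (hC : MeasurableSet C) :
    MeasurableSet {f : ℕ → Env | ∃ i < m, f i ∈ C} := by
  have : {f : ℕ → Env | ∃ i < m, f i ∈ C} = {f : ℕ → Env | ∀ i < m, f i ∈ Cᶜ}ᶜ := by
    ext f
    simp
  rw [this]
  exact (measurableSet_all m hC.compl).compl

theorem measurableSet_evS : ∀ (n : ℕ) (o : Option S), MeasurableSet (evS next m σ n o)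
  | n, none => by cases n <;> simp [evS]
  | 0, some _ => by simp [evS]
  | n + 1, some s => by
    rw [evS]
    exact measurableSet_ex m (measurableSet_child σ (measurableSet_evS n _) (measurableSet_evS n _))

variable (ρ : Measure (ℕ × ℤ)) [IsProbabilityMeasure ρ]

theorem PP_child (hσ : σ ≠ 0) (h1 : ρ.real {p | p.2 = σ} = 1 / 2)
    (h2 : ρ.real {p | p.2 = -σ} = 1 / 2)
    {A B : Set (ℕ → Env)} (hA : MeasurableSet A) (hB : MeasurableSet B) :
    (PP ρ).real (child σ A B) = ((QQ ρ).real A + (QQ ρ).real B) / 2 := by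
  have hU : ∀ a : ℤ, MeasurableSet {p : ℕ × ℤ | p.2 = a} := fun a =>
    measurable_snd (measurableSet_singleton a)
  have e1 : child σ A B = {ω : Env | ω [] ∈ {p : ℕ × ℤ | p.2 = σ} ∧ sub ω ∈ A} ∪
      {ω : Env | ω [] ∈ {p : ℕ × ℤ | p.2 = -σ} ∧ sub ω ∈ B} := by
    ext ω
    simp [child]
  have hm : MeasurableSet {ω : Env | ω [] ∈ {p : ℕ × ℤ | p.2 = -σ} ∧ sub ω ∈ B} :=
    (measurableSet_root (-σ)).inter (measurable_sub hB)
  rw [e1, measureReal_union _ hm]
  · unfold Measure.real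
    rw [PP_root_sub ρ (hU σ) hA, PP_root_sub ρ (hU (-σ)) hB, ENNReal.toReal_mul,
      ENNReal.toReal_mul]
    unfold Measure.real at h1 h2
    rw [h1, h2]
    ring
  · rw [Set.disjoint_left]
    rintro ω ⟨ha, _⟩ ⟨hb, _⟩
    simp only [Set.mem_ofPred_eq] at ha hb
    omega

noncomputable def pr (n : ℕ) (o : Option S) : ℝ := (QQ ρ).real (evS next m σ n o)

theorem QQ_ex (m : ℕ) {C : Set Env} (hC : MeasurableSet C) :
    (QQ ρ).real {f | ∃ i < m, f i ∈ C} = 1 - (1 - (PP ρ).real C) ^ m := by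
  have : {f : ℕ → Env | ∃ i < m, f i ∈ C} = {f : ℕ → Env | ∀ i < m, f i ∈ Cᶜ}ᶜ := by
    ext f
    simp
  rw [this, probReal_compl_eq_one_sub (measurableSet_all m hC.compl)]
  congr 1
  unfold Measure.real
  rw [QQ_all ρ m hC.compl, ENNReal.toReal_pow]
  congr 1
  exact probReal_compl_eq_one_sub hC

omit [IsProbabilityMeasure ρ] in
theorem pr_none (n : ℕ) : pr next m σ ρ n none = 0 := by
  cases n <;> simp [pr, evS]

theorem pr_zero (s : S) : pr next m σ ρ 0 (some s) = 1 := by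
  simp [pr, evS]

theorem pr_succ (hσ : σ ≠ 0) (h1 : ρ.real {p | p.2 = σ} = 1 / 2)
    (h2 : ρ.real {p | p.2 = -σ} = 1 / 2) (n : ℕ) (s : S) :
    pr next m σ ρ (n + 1) (some s) =
      1 - (1 - (pr next m σ ρ n (next s true) + pr next m σ ρ n (next s false)) / 2) ^ m := by
  have hA := measurableSet_evS next m σ n (next s true)
  have hB := measurableSet_evS next m σ n (next s false)
  unfold pr
  rw [evS, QQ_ex ρ m (measurableSet_child σ hA hB), PP_child σ ρ hσ h1 h2 hA hB]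

theorem pr_le_one (n : ℕ) (o : Option S) : pr next m σ ρ n o ≤ 1 := measureReal_le_one

/-- the recursive events decrease -/
theorem evS_anti : ∀ (n : ℕ) (o : Option S), evS next m σ (n + 1) o ⊆ evS next m σ n o
  | n, none => by cases n <;> simp [evS]
  | 0, some _ => by simp [evS]
  | n + 1, some s => by
    intro f hf
    rw [evS] at hf ⊢
    obtain ⟨i, hi, h⟩ := hf
    refine ⟨i, hi, ?_⟩
    rcases h with ⟨ha, hb⟩ | ⟨ha, hb⟩
    · exact Or.inl ⟨ha, evS_anti n _ hb⟩
    · exact Or.inr ⟨ha, evS_anti n _ hb⟩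

theorem evS_antitone (o : Option S) : Antitone (fun n => evS next m σ n o) :=
  antitone_nat_of_succ_le (fun n => evS_anti next m σ n o)

theorem tendsto_pr (o : Option S) :
    Tendsto (fun n => pr next m σ ρ n o) atTop
      (𝓝 ((QQ ρ).real (⋂ n, evS next m σ n o))) := by
  have h := tendsto_measure_iInter_atTop (μ := QQ ρ) (s := fun n => evS next m σ n o)
    (fun n => (measurableSet_evS next m σ n o).nullMeasurableSet) (evS_antitone next m σ o)
    ⟨0, measure_ne_top _ _⟩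
  exact (ENNReal.tendsto_toReal (measure_ne_top _ _)).comp h

theorem lim_eq (hσ : σ ≠ 0) (h1 : ρ.real {p | p.2 = σ} = 1 / 2)
    (h2 : ρ.real {p | p.2 = -σ} = 1 / 2) (s : S) :
    (QQ ρ).real (⋂ n, evS next m σ n (some s)) =
      1 - (1 - ((QQ ρ).real (⋂ n, evS next m σ n (next s true)) +
        (QQ ρ).real (⋂ n, evS next m σ n (next s false))) / 2) ^ m := by
  have hl := (tendsto_pr next m σ ρ (some s)).comp (tendsto_add_atTop_nat 1)
  have hr : Tendsto (fun n => 1 - (1 - (pr next m σ ρ n (next s true) +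
      pr next m σ ρ n (next s false)) / 2) ^ m) atTop
      (𝓝 (1 - (1 - ((QQ ρ).real (⋂ n, evS next m σ n (next s true)) +
        (QQ ρ).real (⋂ n, evS next m σ n (next s false))) / 2) ^ m)) :=
    (((((tendsto_pr next m σ ρ (next s true)).add
      (tendsto_pr next m σ ρ (next s false))).div_const 2).const_sub 1).pow m).const_sub 1
  refine tendsto_nhds_unique hl (hr.congr (fun n => ?_))
  exact (pr_succ next m σ ρ hσ h1 h2 n s).symm

end events

/-! ### the lag automaton -/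

def gnext : ℕ → Bool → Option ℕ
  | k, true => some k
  | 0, false => none
  | k + 1, false => some k

theorem lag_zero (ρ : Measure (ℕ × ℤ)) [IsProbabilityMeasure ρ] (σ : ℤ) (hσ : σ ≠ 0)
    (h1 : ρ.real {p | p.2 = σ} = 1 / 2) (h2 : ρ.real {p | p.2 = -σ} = 1 / 2) :
    ∀ k : ℕ, (QQ ρ).real (⋂ n, evS gnext 2 σ n (some k)) = 0
  | 0 => by
    have h := lim_eq gnext 2 σ ρ hσ h1 h2 0
    have h0 : (QQ ρ).real (⋂ n, evS gnext 2 σ n (gnext 0 false)) = 0 := by
      have : (⋂ n, evS gnext 2 σ n (gnext 0 false)) = ∅ := by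
        refine Set.eq_empty_of_subset_empty ?_
        intro f hf
        exact (Set.mem_iInter.1 hf 0)
      rw [this]; simp
    rw [h0] at h
    change _ = 1 - (1 - ((QQ ρ).real (⋂ n, evS gnext 2 σ n (some 0)) + 0) / 2) ^ 2 at h
    nlinarith
  | k + 1 => by
    have h := lim_eq gnext 2 σ ρ hσ h1 h2 (k + 1)
    have h0 : (QQ ρ).real (⋂ n, evS gnext 2 σ n (gnext (k + 1) false)) = 0 :=
      lag_zero ρ σ hσ h1 h2 k
    rw [h0] at h
    change _ = 1 - (1 - ((QQ ρ).real (⋂ n, evS gnext 2 σ n (some (k + 1))) + 0) / 2) ^ 2 at h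
    nlinarith

theorem four_pos (ρ : Measure (ℕ × ℤ)) [IsProbabilityMeasure ρ] (σ : ℤ) (hσ : σ ≠ 0)
    (h1 : ρ.real {p | p.2 = σ} = 1 / 2) (h2 : ρ.real {p | p.2 = -σ} = 1 / 2) :
    QQ ρ (⋂ n, evS gnext 4 σ n (some 0)) ≠ 0 := by
  have hb : ∀ n, 9 / 10 ≤ pr gnext 4 σ ρ n (some 0) := by
    intro n
    induction n with
    | zero => rw [pr_zero]; norm_num
    | succ n ih =>
      rw [pr_succ gnext 4 σ ρ hσ h1 h2 n 0]
      have h0 : pr gnext 4 σ ρ n (gnext 0 false) = 0 := pr_none gnext 4 σ ρ n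
      rw [h0]
      change _ ≤ 1 - (1 - (pr gnext 4 σ ρ n (some 0) + 0) / 2) ^ 4
      have hle := pr_le_one gnext 4 σ ρ n (some 0)
      have h3 : (1 - (pr gnext 4 σ ρ n (some 0) + 0) / 2) ^ 4 ≤ (11 / 20 : ℝ) ^ 4 :=
        pow_le_pow_left₀ (by linarith) (by linarith) 4
      norm_num at h3 ⊢
      linarith
  have hlim := ge_of_tendsto' (tendsto_pr gnext 4 σ ρ (some 0)) hb
  intro h0
  unfold Measure.real at hlim
  rw [h0] at hlim
  norm_num at hlim

/-! ### the block automaton -/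

def dnext (l : ℕ) : ℕ × Bool → Bool → Option (ℕ × Bool)
  | (r + 1, b), true => some (r, b)
  | (r + 1, true), false => some (r, false)
  | (_ + 1, false), false => none
  | (0, _), true => some (l, true)
  | (0, _), false => some (l, false)

theorem block_bound (ρ : Measure (ℕ × ℤ)) [IsProbabilityMeasure ρ] (σ : ℤ) (hσ : σ ≠ 0)
    (h1 : ρ.real {p | p.2 = σ} = 1 / 2) (h2 : ρ.real {p | p.2 = -σ} = 1 / 2)
    (l : ℕ) (e : ℝ) (he : 0 < e) (hel : e * (l + 1) ≤ 1 / 4) :
    ∀ n r : ℕ, r ≤ l → e ≤ pr (dnext l) 2 σ ρ n (some (r, true)) ∧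
      e * (1 - r * e) ≤ pr (dnext l) 2 σ ρ n (some (r, false)) := by
  have hl0 : (0 : ℝ) ≤ l := Nat.cast_nonneg l
  have he4 : e ≤ 1 / 4 := by nlinarith
  have mono : ∀ x y a b : ℝ, 0 ≤ a → 0 ≤ b → a ≤ x → b ≤ y → x ≤ 1 → y ≤ 1 →
      a + b - (a + b) ^ 2 / 4 ≤ 1 - (1 - (x + y) / 2) ^ 2 := by
    intro x y a b _ _ hx hy hx1 hy1
    nlinarith
  intro n
  induction n with
  | zero =>
    intro r hr
    rw [pr_zero, pr_zero]
    have hr0 : (0 : ℝ) ≤ r := Nat.cast_nonneg r
    refine ⟨by linarith, ?_⟩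
    nlinarith [mul_nonneg hr0 he.le]
  | succ n ih =>
    intro r hr
    rw [pr_succ (dnext l) 2 σ ρ hσ h1 h2 n, pr_succ (dnext l) 2 σ ρ hσ h1 h2 n]
    obtain ⟨ihl1, ihl2⟩ := ih l le_rfl
    have hle : ∀ o, pr (dnext l) 2 σ ρ n o ≤ 1 := pr_le_one (dnext l) 2 σ ρ n
    cases r with
    | zero =>
      change e ≤ 1 - (1 - (pr (dnext l) 2 σ ρ n (some (l, true)) +
        pr (dnext l) 2 σ ρ n (some (l, false))) / 2) ^ 2 ∧
        e * (1 - (0 : ℕ) * e) ≤ 1 - (1 - (pr (dnext l) 2 σ ρ n (some (l, true)) +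
        pr (dnext l) 2 σ ρ n (some (l, false))) / 2) ^ 2
      have hb0 : 0 ≤ e * (1 - l * e) := by
        apply mul_nonneg he.le
        nlinarith
      have := mono _ _ e (e * (1 - l * e)) he.le hb0 ihl1 ihl2 (hle _) (hle _)
      have hkey : e ≤ e + e * (1 - l * e) - (e + e * (1 - l * e)) ^ 2 / 4 := by
        have : (e + e * (1 - l * e)) ^ 2 ≤ (2 * e) ^ 2 := by
          apply pow_le_pow_left₀ (by linarith)
          nlinarith [mul_nonneg hl0 (mul_nonneg he.le he.le)]
        nlinarith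
      constructor
      · linarith
      · push_cast
        linarith
    | succ r =>
      have hr' : r ≤ l := by omega
      have hrl : (r : ℝ) + 1 ≤ l := by exact_mod_cast hr
      have hr0 : (0 : ℝ) ≤ r := Nat.cast_nonneg r
      obtain ⟨ih1, ih2⟩ := ih r hr'
      have hn0 : pr (dnext l) 2 σ ρ n none = 0 := pr_none _ _ _ _ n
      change e ≤ 1 - (1 - (pr (dnext l) 2 σ ρ n (some (r, true)) +
        pr (dnext l) 2 σ ρ n (some (r, false))) / 2) ^ 2 ∧
        e * (1 - (r + 1 : ℕ) * e) ≤ 1 - (1 - (pr (dnext l) 2 σ ρ n (some (r, false)) +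
        pr (dnext l) 2 σ ρ n none) / 2) ^ 2
      have hb0 : 0 ≤ e * (1 - r * e) := by
        apply mul_nonneg he.le
        nlinarith
      have hb1 : e * (1 - r * e) ≤ e := by
        nlinarith [mul_nonneg hr0 (mul_nonneg he.le he.le)]
      constructor
      · have := mono _ _ e (e * (1 - r * e)) he.le hb0 ih1 ih2 (hle _) (hle _)
        have hkey : e ≤ e + e * (1 - r * e) - (e + e * (1 - r * e)) ^ 2 / 4 := by
          have : (e + e * (1 - r * e)) ^ 2 ≤ (2 * e) ^ 2 := by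
            apply pow_le_pow_left₀ (by linarith)
            linarith
          nlinarith
        linarith
      · have := mono _ _ (e * (1 - r * e)) 0 hb0 le_rfl ih2 hn0.ge (hle _) (by rw [hn0]; norm_num)
        have hkey : e * (1 - (r + 1) * e) ≤ e * (1 - r * e) + 0 - (e * (1 - r * e) + 0) ^ 2 / 4 := by
          have : (e * (1 - r * e) + 0) ^ 2 ≤ e ^ 2 := by
            apply pow_le_pow_left₀ (by linarith)
            linarith
          nlinarith
        push_cast
        linarith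

theorem block_pos (ρ : Measure (ℕ × ℤ)) [IsProbabilityMeasure ρ] (σ : ℤ) (hσ : σ ≠ 0)
    (h1 : ρ.real {p | p.2 = σ} = 1 / 2) (h2 : ρ.real {p | p.2 = -σ} = 1 / 2) (l : ℕ) :
    QQ ρ (⋂ n, evS (dnext l) 2 σ n (some (l, true))) ≠ 0 := by
  have hl0 : (0 : ℝ) < (l : ℝ) + 1 := by positivity
  have hb := fun n => (block_bound ρ σ hσ h1 h2 l (1 / (4 * (l + 1))) (by positivity)
    (by rw [div_mul_eq_mul_div, one_mul, div_le_iff₀ (by positivity)]; linarith) n l le_rfl).1
  have hlim := ge_of_tendsto' (tendsto_pr (dnext l) 2 σ ρ (some (l, true))) hb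
  intro h0
  unfold Measure.real at hlim
  rw [h0] at hlim
  have : (0 : ℝ) < 1 / (4 * (l + 1)) := by positivity
  simp only [ENNReal.toReal_zero] at hlim
  linarith


/-! ### paths -/

theorem pos_bound : ∀ (v : List ℕ) (ω : Env), (∀ u, (ω u).2 = 1 ∨ (ω u).2 = -1) →
    pos ω v ≤ v.length ∧ -(v.length : ℤ) ≤ pos ω v
  | [], _, _ => by simp [pos]
  | i :: v, ω, h => by
    obtain ⟨h1, h2⟩ := pos_bound v (sub ω i) (fun u => h (i :: u))
    rw [pos, List.length_cons]
    push_cast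
    rcases h [i] with h3 | h3 <;> rw [h3] <;> constructor <;> linarith

theorem ev_of_path (m : ℕ) (σ : ℤ) (hσ : σ = 1 ∨ σ = -1) : ∀ (v : List ℕ) (ω : Env) (k : ℕ),
    (∀ u, (ω u).2 = 1 ∨ (ω u).2 = -1) → (∀ i ∈ v, i < m) →
    (v.length : ℤ) - σ * pos ω v ≤ 2 * k → sub ω ∈ evS gnext m σ v.length (some k)
  | [], ω, k, _, _, _ => by simp [evS]
  | i :: v, ω, k, hω, hv, hk => by
    have hi : i < m := hv i (by simp)
    have hv' : ∀ j ∈ v, j < m := fun j hj => hv j (by simp [hj])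
    have hω' : ∀ u, (sub ω i u).2 = 1 ∨ (sub ω i u).2 = -1 := fun u => hω (i :: u)
    have hb := pos_bound v (sub ω i) hω'
    rw [List.length_cons, evS]
    refine ⟨i, hi, ?_⟩
    rw [pos, List.length_cons] at hk
    push_cast at hk
    have hcase : (ω [i]).2 = σ ∨ (ω [i]).2 = -σ := by
      rcases hω [i] with h | h <;> rcases hσ with h' | h' <;> omega
    rcases hcase with h | h
    · left
      refine ⟨h, ev_of_path m σ hσ v (sub ω i) k hω' hv' ?_⟩
      rw [h] at hk
      rcases hσ with rfl | rfl <;> linarith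
    · right
      rw [h] at hk
      cases k with
      | zero =>
        exfalso
        rcases hσ with rfl | rfl <;> push_cast at hk <;> linarith
      | succ k =>
        refine ⟨h, ev_of_path m σ hσ v (sub ω i) k hω' hv' ?_⟩
        push_cast at hk
        rcases hσ with rfl | rfl <;> linarith

theorem path_of_lag (m : ℕ) (σ : ℤ) (hσ : σ = 1 ∨ σ = -1) : ∀ (n : ℕ) (ω : Env) (k : ℕ),
    sub ω ∈ evS gnext m σ n (some k) →
    ∃ v : List ℕ, (∀ i ∈ v, i < m) ∧ v.length = n ∧ (n : ℤ) - σ * pos ω v ≤ 2 * k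
  | 0, ω, k, _ => ⟨[], by simp, rfl, by simp [pos]⟩
  | n + 1, ω, k, h => by
    rw [evS] at h
    obtain ⟨i, hi, h⟩ := h
    rcases h with ⟨ha, hb⟩ | ⟨ha, hb⟩
    · have hb' : sub (sub ω i) ∈ evS gnext m σ n (some k) := by
        cases k <;> exact hb
      obtain ⟨v, hv, hl, hp⟩ := path_of_lag m σ hσ n (sub ω i) k hb'
      refine ⟨i :: v, ?_, by simp [hl], ?_⟩
      · intro j hj
        rcases List.mem_cons.1 hj with rfl | hj
        · exact hi
        · exact hv j hj
      · have ha' : (ω [i]).2 = σ := ha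
        rw [pos, ha']
        push_cast
        rcases hσ with rfl | rfl <;> linarith
    · cases k with
      | zero => cases n <;> exact absurd hb (by simp [gnext, evS])
      | succ k =>
        have hb' : sub (sub ω i) ∈ evS gnext m σ n (some k) := hb
        obtain ⟨v, hv, hl, hp⟩ := path_of_lag m σ hσ n (sub ω i) k hb'
        refine ⟨i :: v, ?_, by simp [hl], ?_⟩
        · intro j hj
          rcases List.mem_cons.1 hj with rfl | hj
          · exact hi
          · exact hv j hj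
        · have ha' : (ω [i]).2 = -σ := ha
          rw [pos, ha']
          push_cast
          rcases hσ with rfl | rfl <;> linarith

theorem path_of_block (m l : ℕ) (σ : ℤ) (hσ : σ = 1 ∨ σ = -1) :
    ∀ (n : ℕ) (ω : Env) (r : ℕ) (b : Bool), r ≤ l → sub ω ∈ evS (dnext l) m σ n (some (r, b)) →
    ∃ v : List ℕ, (∀ i ∈ v, i < m) ∧ v.length = n ∧
      ((l : ℤ) + 1) * ((n : ℤ) - σ * pos ω v) ≤
        2 * (((l : ℤ) + 1) * (if b then 1 else 0) + n + l - r)
  | 0, ω, r, b, hr, _ => by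
    refine ⟨[], by simp, rfl, ?_⟩
    have hr' : (r : ℤ) ≤ l := by exact_mod_cast hr
    have hl : (0 : ℤ) ≤ l := Int.natCast_nonneg l
    cases b <;> simp [pos] <;> linarith
  | n + 1, ω, r, b, hr, h => by
    rw [evS] at h
    obtain ⟨i, hi, h⟩ := h
    have key : ∃ (r' : ℕ) (b' : Bool), r' ≤ l ∧
        sub (sub ω i) ∈ evS (dnext l) m σ n (some (r', b')) ∧
        ((l : ℤ) + 1) * (1 - σ * (ω [i]).2) +
          2 * (((l : ℤ) + 1) * (if b' then 1 else 0) + n + l - r') ≤
        2 * (((l : ℤ) + 1) * (if b then 1 else 0) + ((n : ℤ) + 1) + l - r) := by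
      have hl : (0 : ℤ) ≤ l := Int.natCast_nonneg l
      rcases h with ⟨ha, hb⟩ | ⟨ha, hb⟩
      · have ha' : σ * (ω [i]).2 = 1 := by
          have : (ω [i]).2 = σ := ha
          rw [this]
          rcases hσ with rfl | rfl <;> norm_num
        rw [ha']
        cases r with
        | zero =>
          refine ⟨l, true, le_rfl, hb, ?_⟩
          cases b <;> simp <;> linarith
        | succ r =>
          refine ⟨r, b, by omega, by cases b <;> exact hb, ?_⟩
          push_cast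
          linarith
      · have ha' : σ * (ω [i]).2 = -1 := by
          have : (ω [i]).2 = -σ := ha
          rw [this]
          rcases hσ with rfl | rfl <;> norm_num
        rw [ha']
        cases r with
        | zero =>
          refine ⟨l, false, le_rfl, hb, ?_⟩
          cases b <;> simp <;> linarith
        | succ r =>
          cases b with
          | false =>
            cases n <;> exact absurd hb (by simp [dnext, evS])
          | true =>
            refine ⟨r, false, by omega, hb, ?_⟩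
            simp
            linarith
    obtain ⟨r', b', hr', hb', hk⟩ := key
    obtain ⟨v, hv, hlen, hp⟩ := path_of_block m l σ hσ n (sub ω i) r' b' hr' hb'
    refine ⟨i :: v, ?_, by simp [hlen], ?_⟩
    · intro j hj
      rcases List.mem_cons.1 hj with rfl | hj
      · exact hi
      · exact hv j hj
    · rw [pos]
      push_cast
      calc ((l : ℤ) + 1) * ((n : ℤ) + 1 - σ * ((ω [i]).2 + pos (sub ω i) v))
          = ((l : ℤ) + 1) * (1 - σ * (ω [i]).2) +
            ((l : ℤ) + 1) * ((n : ℤ) - σ * pos (sub ω i) v) := by ring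
        _ ≤ _ := by linarith

/-! ### the tail events -/

def WW (m : ℕ) (σ a b : ℤ) : Set Env :=
  {ω | ∃ K : ℕ, ∀ n : ℕ, ∃ v : List ℕ, (∀ i ∈ v, i < m) ∧ v.length = n ∧
    a * ((n : ℤ) - σ * pos ω v) ≤ b * n + K}

theorem measurable_pos : ∀ v : List ℕ, Measurable (fun ω : Env => pos ω v)
  | [] => measurable_const
  | i :: v => by
    have h1 : Measurable (fun ω : Env => (ω [i]).2) :=
      measurable_snd.comp (measurable_pi_apply ([i] : List ℕ))
    have h2 : Measurable (fun ω : Env => pos (sub ω i) v) :=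
      (measurable_pos v).comp ((measurable_pi_apply i).comp measurable_sub)
    exact h1.add h2

theorem measurableSet_WW (m : ℕ) (σ a b : ℤ) : MeasurableSet (WW m σ a b) := by
  have : WW m σ a b = ⋃ K : ℕ, ⋂ n : ℕ, ⋃ v : List ℕ, {ω : Env | (∀ i ∈ v, i < m) ∧
      v.length = n ∧ a * ((n : ℤ) - σ * pos ω v) ≤ b * n + K} := by
    ext ω
    simp [WW]
  rw [this]
  refine MeasurableSet.iUnion (fun K => MeasurableSet.iInter (fun n =>
    MeasurableSet.iUnion (fun v => ?_)))
  refine (MeasurableSet.const _).inter ((MeasurableSet.const _).inter ?_)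
  exact measurableSet_le (((measurable_const.sub ((measurable_pos v).const_mul σ))).const_mul a)
    measurable_const

theorem WW_closed (m : ℕ) (σ a b : ℤ) (hb : 0 ≤ b) (ω : Env) (i : ℕ) (hi : i < m)
    (h : sub ω i ∈ WW m σ a b) : ω ∈ WW m σ a b := by
  obtain ⟨K, hK⟩ := h
  refine ⟨K + (a * (1 - σ * (ω [i]).2)).natAbs, ?_⟩
  intro n
  have habs : a * (1 - σ * (ω [i]).2) ≤ ((a * (1 - σ * (ω [i]).2)).natAbs : ℤ) := Int.le_natAbs
  cases n with
  | zero =>
    refine ⟨[], by simp, rfl, ?_⟩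
    simp only [pos]
    push_cast
    have : (0 : ℤ) ≤ |a * (1 - σ * (ω [i]).2)| := abs_nonneg _
    have hK0 : (0 : ℤ) ≤ K := Int.natCast_nonneg K
    linarith
  | succ n =>
    obtain ⟨v, hv, hlen, hp⟩ := hK n
    refine ⟨i :: v, ?_, by simp [hlen], ?_⟩
    · intro j hj
      rcases List.mem_cons.1 hj with rfl | hj
      · exact hi
      · exact hv j hj
    · rw [pos]
      rw [Nat.cast_add, Nat.cast_add, Nat.cast_one]
      calc a * ((n : ℤ) + 1 - σ * ((ω [i]).2 + pos (sub ω i) v))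
          = a * (1 - σ * (ω [i]).2) + a * ((n : ℤ) - σ * pos (sub ω i) v) := by ring
        _ ≤ _ := by linarith

theorem WW_ae (ρ : Measure (ℕ × ℤ)) [IsProbabilityMeasure ρ] (m : ℕ) (hm : 2 ≤ m) (σ a b : ℤ)
    (hb : 0 ≤ b) {A : Set (ℕ → Env)} (hA : MeasurableSet A) (hA0 : QQ ρ A ≠ 0)
    (hsub : sub ⁻¹' A ⊆ WW m σ a b) : ∀ᵐ ω ∂(PP ρ), ω ∈ WW m σ a b := by
  refine zero_one ρ m hm (measurableSet_WW m σ a b)
    (fun ω i hi h => WW_closed m σ a b hb ω i hi h) ?_
  intro h0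
  apply hA0
  rw [← PP_sub ρ hA]
  exact measure_mono_null hsub h0

theorem red_WW (ρ : Measure (ℕ × ℤ)) [IsProbabilityMeasure ρ] (σ : ℤ) (hσ : σ = 1 ∨ σ = -1)
    (h1 : ρ.real {p | p.2 = σ} = 1 / 2) (h2 : ρ.real {p | p.2 = -σ} = 1 / 2) :
    ∀ᵐ ω ∂(PP ρ), ω ∈ WW 4 σ 1 0 := by
  have hσ0 : σ ≠ 0 := by rcases hσ with rfl | rfl <;> norm_num
  refine WW_ae ρ 4 (by norm_num) σ 1 0 le_rfl
    (MeasurableSet.iInter (fun n => measurableSet_evS gnext 4 σ n (some 0)))
    (four_pos ρ σ hσ0 h1 h2) ?_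
  intro ω hω
  refine ⟨0, fun n => ?_⟩
  obtain ⟨v, hv, hl, hp⟩ := path_of_lag 4 σ hσ n ω 0 (Set.mem_iInter.1 hω n)
  refine ⟨v, hv, hl, ?_⟩
  push_cast at hp ⊢
  linarith

theorem blue_WW (ρ : Measure (ℕ × ℤ)) [IsProbabilityMeasure ρ] (σ : ℤ) (hσ : σ = 1 ∨ σ = -1)
    (h1 : ρ.real {p | p.2 = σ} = 1 / 2) (h2 : ρ.real {p | p.2 = -σ} = 1 / 2) (l : ℕ) :
    ∀ᵐ ω ∂(PP ρ), ω ∈ WW 2 σ (l + 1) 2 := by
  have hσ0 : σ ≠ 0 := by rcases hσ with rfl | rfl <;> norm_num
  refine WW_ae ρ 2 le_rfl σ (l + 1) 2 (by norm_num)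
    (MeasurableSet.iInter (fun n => measurableSet_evS (dnext l) 2 σ n (some (l, true))))
    (block_pos ρ σ hσ0 h1 h2 l) ?_
  intro ω hω
  refine ⟨2 * (l + 1), fun n => ?_⟩
  obtain ⟨v, hv, hlen, hp⟩ := path_of_block 2 l σ hσ n ω l true le_rfl (Set.mem_iInter.1 hω n)
  refine ⟨v, hv, hlen, ?_⟩
  simp only [if_true] at hp
  push_cast at hp ⊢
  linarith

/-- the blue lag goes to infinity -/
theorem blue_lag (ρ : Measure (ℕ × ℤ)) [IsProbabilityMeasure ρ] (σ : ℤ) (hσ : σ = 1 ∨ σ = -1)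
    (h1 : ρ.real {p | p.2 = σ} = 1 / 2) (h2 : ρ.real {p | p.2 = -σ} = 1 / 2) :
    ∀ᵐ ω ∂(PP ρ), ∀ k : ℕ, ∃ n, sub ω ∉ evS gnext 2 σ n (some k) := by
  have hσ0 : σ ≠ 0 := by rcases hσ with rfl | rfl <;> norm_num
  rw [ae_all_iff]
  intro k
  have hA : MeasurableSet (⋂ n, evS gnext 2 σ n (some k)) :=
    MeasurableSet.iInter (fun n => measurableSet_evS gnext 2 σ n (some k))
  have h0 : PP ρ (sub ⁻¹' (⋂ n, evS gnext 2 σ n (some k))) = 0 := by
    rw [PP_sub ρ hA]
    have := lag_zero ρ σ hσ0 h1 h2 k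
    unfold Measure.real at this
    exact (ENNReal.toReal_eq_zero_iff _).1 this |>.resolve_right (measure_ne_top _ _)
  refine (measure_eq_zero_iff_ae_notMem.1 h0).mono (fun ω h => ?_)
  by_contra hcon
  push Not at hcon
  exact h (Set.mem_iInter.2 hcon)

/-! ### deterministic consequences -/

theorem ivt (m : ℕ) (σ : ℤ) (hσ : σ = 1 ∨ σ = -1) : ∀ (v : List ℕ) (ω : Env) (x : ℤ),
    (∀ u, (ω u).2 = 1 ∨ (ω u).2 = -1) → (∀ i ∈ v, i < m) → 0 ≤ σ * x → σ * x ≤ σ * pos ω v →
    ∃ w : List ℕ, (∀ i ∈ w, i < m) ∧ w.length ≤ v.length ∧ pos ω w = x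
  | [], ω, x, _, _, h0, h1 => by
    refine ⟨[], by simp, le_rfl, ?_⟩
    simp only [pos] at h1 ⊢
    rcases hσ with rfl | rfl <;> omega
  | i :: v, ω, x, hω, hv, h0, h1 => by
    by_cases hx : x = 0
    · exact ⟨[], by simp, by simp, by simp [pos, hx]⟩
    · have hi : i < m := hv i (by simp)
      have hv' : ∀ j ∈ v, j < m := fun j hj => hv j (by simp [hj])
      have hω' : ∀ u, (sub ω i u).2 = 1 ∨ (sub ω i u).2 = -1 := fun u => hω (i :: u)
      rw [pos] at h1
      have h2 : 0 ≤ σ * (x - (ω [i]).2) ∧ σ * (x - (ω [i]).2) ≤ σ * pos (sub ω i) v := by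
        rcases hσ with rfl | rfl <;> rcases hω [i] with h | h <;> rw [h] at h1 ⊢ <;>
          constructor <;> omega
      obtain ⟨w, hw, hl, hp⟩ := ivt m σ hσ v (sub ω i) (x - (ω [i]).2) hω' hv' h2.1 h2.2
      refine ⟨i :: w, ?_, by simp [hl], ?_⟩
      · intro j hj
        rcases List.mem_cons.1 hj with rfl | hj
        · exact hi
        · exact hw j hj
      · rw [pos, hp]
        ring

theorem hit_of_WW (m : ℕ) (a b : ℤ) (ha : 0 < a) (ω : Env)
    (hω : ∀ u, (ω u).2 = 1 ∨ (ω u).2 = -1) (hp : ω ∈ WW m 1 a b) (hn : ω ∈ WW m (-1) a b) :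
    ∃ K : ℕ, ∀ (n : ℕ) (x : ℤ), a * |x| ≤ a * n - b * n - K →
      ∃ w : List ℕ, (∀ i ∈ w, i < m) ∧ w.length ≤ n ∧ pos ω w = x := by
  obtain ⟨K1, hK1⟩ := hp
  obtain ⟨K2, hK2⟩ := hn
  refine ⟨K1 + K2, fun n x hx => ?_⟩
  have hk1 : (0 : ℤ) ≤ K1 := Int.natCast_nonneg K1
  have hk2 : (0 : ℤ) ≤ K2 := Int.natCast_nonneg K2
  push_cast at hx
  rcases le_total 0 x with h0 | h0
  · rw [abs_of_nonneg h0] at hx
    obtain ⟨v, hv, hl, hp⟩ := hK1 n
    have h1 : x ≤ pos ω v := by
      have : a * x ≤ a * pos ω v := by linarith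
      exact le_of_mul_le_mul_left this ha
    obtain ⟨w, hw, hwl, hwp⟩ := ivt m 1 (Or.inl rfl) v ω x hω hv (by linarith) (by linarith)
    exact ⟨w, hw, hwl.trans hl.le, hwp⟩
  · rw [abs_of_nonpos h0] at hx
    obtain ⟨v, hv, hl, hp⟩ := hK2 n
    have h1 : pos ω v ≤ x := by
      have : a * (-x) ≤ a * (-pos ω v) := by linarith
      have := le_of_mul_le_mul_left this ha
      linarith
    obtain ⟨w, hw, hwl, hwp⟩ := ivt m (-1) (Or.inr rfl) v ω x hω hv (by linarith) (by linarith)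
    exact ⟨w, hw, hwl.trans hl.le, hwp⟩

theorem alive_iff (m : ℕ) : ∀ (v : List ℕ) (ω : Env), (∀ u, (ω u).1 = m) →
    (Alive ω v ↔ ∀ i ∈ v, i < m)
  | [], ω, _ => by simp [Alive]
  | i :: v, ω, h => by
    rw [Alive, alive_iff m v (sub ω i) (fun u => h (i :: u)), h []]
    simp


/-! ### the shape -/

theorem shape_of_fill (ω : Env) (hb : ∀ v, Alive ω v → |pos ω v| ≤ (v.length : ℤ))
    (hf : ∀ l : ℕ, ∃ K : ℕ, ∀ (n : ℕ) (x : ℤ), ((l : ℤ) + 1) * |x| ≤ ((l : ℤ) + 1) * n - 2 * n - K →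
      x ∈ visited ω n) :
    ∀ ε ∈ Ioo (0 : ℝ) 1, ∀ᶠ n : ℕ in atTop,
      (1 - ε) • Icc (-1 : ℝ) 1 ⊆ ((n : ℝ)⁻¹) • fat (visited ω n) ∧
      ((n : ℝ)⁻¹) • fat (visited ω n) ⊆ (1 + ε) • Icc (-1 : ℝ) 1 := by
  rintro ε ⟨he0, he1⟩
  obtain ⟨l, hl⟩ := exists_nat_gt (3 / ε)
  obtain ⟨K, hK⟩ := hf l
  obtain ⟨N, hN⟩ := exists_nat_gt ((K : ℝ) + (l + 1) / 2 + 1 / ε)
  refine eventually_atTop.2 ⟨N, fun n hn => ?_⟩
  have hnN : (N : ℝ) ≤ n := by exact_mod_cast hn
  have hK0 : (0 : ℝ) ≤ K := Nat.cast_nonneg K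
  have hl0 : (0 : ℝ) ≤ l := Nat.cast_nonneg l
  have hinv : 0 < 1 / ε := by positivity
  have hn1 : (K : ℝ) + (l + 1) / 2 ≤ n := by linarith
  have hn2 : 1 / ε ≤ n := by linarith
  have hn0 : (0 : ℝ) < n := lt_of_lt_of_le hinv hn2
  have hl3 : 3 ≤ ε * l := by
    have := (div_lt_iff₀ he0).1 hl
    linarith
  have hne : 1 ≤ ε * n := by
    have := (div_le_iff₀ he0).1 hn2
    linarith
  constructor
  · rintro y ⟨z, ⟨hz1, hz2⟩, rfl⟩
    refine ⟨(n : ℝ) * ((1 - ε) * z), ?_, ?_⟩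
    · set u : ℝ := (n : ℝ) * ((1 - ε) * z) with hu
      have hc1 : u - 1 / 2 ≤ ⌈u - 1 / 2⌉ := Int.le_ceil _
      have hc2 : (⌈u - 1 / 2⌉ : ℝ) < u - 1 / 2 + 1 := Int.ceil_lt_add_one _
      have hu1 : u ≤ n * (1 - ε) := by
        rw [hu]
        have : (1 - ε) * z ≤ (1 - ε) * 1 := mul_le_mul_of_nonneg_left hz2 (by linarith)
        calc (n : ℝ) * ((1 - ε) * z) ≤ n * ((1 - ε) * 1) := mul_le_mul_of_nonneg_left this hn0.le
          _ = n * (1 - ε) := by ring
      have hu2 : -(n * (1 - ε)) ≤ u := by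
        rw [hu]
        have : (1 - ε) * (-1) ≤ (1 - ε) * z := mul_le_mul_of_nonneg_left hz1 (by linarith)
        calc -((n : ℝ) * (1 - ε)) = n * ((1 - ε) * (-1)) := by ring
          _ ≤ (n : ℝ) * ((1 - ε) * z) := mul_le_mul_of_nonneg_left this hn0.le
      refine Set.mem_iUnion₂.2 ⟨⌈u - 1 / 2⌉, hK n _ ?_, ?_, ?_⟩
      · have habs : (|(⌈u - 1 / 2⌉ : ℝ)|) ≤ n * (1 - ε) + 1 / 2 := by
          rw [abs_le]; constructor <;> linarith
        have hreal : ((l : ℝ) + 1) * |(⌈u - 1 / 2⌉ : ℝ)| ≤ ((l : ℝ) + 1) * n - 2 * n - K := by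
          calc ((l : ℝ) + 1) * |(⌈u - 1 / 2⌉ : ℝ)| ≤ (l + 1) * (n * (1 - ε) + 1 / 2) :=
                mul_le_mul_of_nonneg_left habs (by linarith)
            _ = (l + 1) * n - (ε * l) * n - ε * n + (l + 1) / 2 := by ring
            _ ≤ ((l : ℝ) + 1) * n - 2 * n - K := by
                have h3 : 3 * (n : ℝ) ≤ (ε * l) * n := mul_le_mul_of_nonneg_right hl3 hn0.le
                have h4 : 0 ≤ ε * n := by positivity
                linarith
        exact_mod_cast hreal
      · linarith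
      · linarith
    · change (n : ℝ)⁻¹ * ((n : ℝ) * ((1 - ε) * z)) = (1 - ε) * z
      field_simp
  · rintro y ⟨u, hu, rfl⟩
    obtain ⟨x, hx, hx1, hx2⟩ := Set.mem_iUnion₂.1 hu
    obtain ⟨v, hv, hvl, hvp⟩ := hx
    have h1 : |x| ≤ (n : ℤ) := by
      rw [← hvp]
      exact (hb v hv).trans (by exact_mod_cast hvl)
    have h2 : |(x : ℝ)| ≤ n := by exact_mod_cast h1
    rw [abs_le] at h2
    refine ⟨(1 + ε)⁻¹ * ((n : ℝ)⁻¹ * u), ?_, ?_⟩
    · have hpos : 0 < (1 + ε) * n := by positivity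
      have e1 : (1 + ε)⁻¹ * ((n : ℝ)⁻¹ * u) = u / ((1 + ε) * n) := by field_simp
      rw [e1]
      constructor
      · rw [le_div_iff₀ hpos]
        nlinarith
      · rw [div_le_iff₀ hpos]
        nlinarith
    · change (1 + ε) * ((1 + ε)⁻¹ * ((n : ℝ)⁻¹ * u)) = (n : ℝ)⁻¹ * u
      field_simp

/-! ### the two laws -/

/-- exactly `m` children, each displaced by `1` or `-1` with probability `1/2` -/
noncomputable def mkLaw (m : ℕ) (hm : 2 ≤ m) : Law where
  mu := PMF.pure m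
  nu := PMF.uniformOfFinset {1, -1} ⟨1, by simp⟩
  mu_zero := by
    rw [PMF.pure_apply, if_neg (by omega)]
  one_lt_mean := by
    rw [tsum_eq_single m]
    · rw [PMF.pure_apply, if_pos rfl, one_mul]
      exact_mod_cast (show 1 < m by omega)
    · intro k hk
      rw [PMF.pure_apply, if_neg hk, zero_mul]
  finite_support := by
    rw [PMF.support_uniformOfFinset]
    exact Finset.finite_toSet _
  one_mem := by simp
  neg_one_mem := by simp

noncomputable abbrev rho (m : ℕ) (hm : 2 ≤ m) : Measure (ℕ × ℤ) :=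
  (mkLaw m hm).mu.toMeasure.prod (mkLaw m hm).nu.toMeasure

theorem rho_real (m : ℕ) (hm : 2 ≤ m) (σ : ℤ) (hσ : σ = 1 ∨ σ = -1) :
    (rho m hm).real {p | p.2 = σ} = 1 / 2 := by
  have e : {p : ℕ × ℤ | p.2 = σ} = Set.univ ×ˢ {σ} := by
    ext p; simp
  unfold Measure.real
  rw [e, Measure.prod_prod, measure_univ, one_mul, PMF.toMeasure_apply_singleton _ _
    (measurableSet_singleton σ)]
  change ((PMF.uniformOfFinset ({1, -1} : Finset ℤ) ⟨1, by simp⟩) σ).toReal = 1 / 2
  rw [PMF.uniformOfFinset_apply_of_mem]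
  · simp
  · rcases hσ with rfl | rfl <;> simp

theorem rho_good (m : ℕ) (hm : 2 ≤ m) :
    ∀ᵐ p ∂(rho m hm), p.1 = m ∧ (p.2 = 1 ∨ p.2 = -1) := by
  have hset : MeasurableSet ({m} ×ˢ {1, -1} : Set (ℕ × ℤ)) := MeasurableSet.of_discrete
  have h1 : rho m hm ({m} ×ˢ {1, -1} : Set (ℕ × ℤ)) = 1 := by
    rw [Measure.prod_prod]
    have e1 : (mkLaw m hm).mu.toMeasure {m} = 1 := by
      rw [PMF.toMeasure_apply_eq_one_iff _ (measurableSet_singleton m)]
      change (PMF.pure m).support ⊆ {m}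
      rw [PMF.support_pure]
    have e2 : (mkLaw m hm).nu.toMeasure {1, -1} = 1 := by
      rw [PMF.toMeasure_apply_eq_one_iff _ MeasurableSet.of_discrete]
      change (PMF.uniformOfFinset ({1, -1} : Finset ℤ) ⟨1, by simp⟩).support ⊆ {1, -1}
      rw [PMF.support_uniformOfFinset]
      simp
    rw [e1, e2, one_mul]
  have h2 := (prob_compl_eq_zero_iff hset).2 h1
  refine (measure_eq_zero_iff_ae_notMem.1 h2).mono (fun p hp => ?_)
  have := not_not.1 hp
  simpa using this

theorem env_good (m : ℕ) (hm : 2 ≤ m) :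
    ∀ᵐ ω ∂(PP (rho m hm)), ∀ v, (ω v).1 = m ∧ ((ω v).2 = 1 ∨ (ω v).2 = -1) := by
  rw [ae_all_iff]
  intro v
  have h := rho_good m hm
  have hmap : (PP (rho m hm)).map (fun ω => ω v) = rho m hm :=
    Measure.infinitePi_map_eval (fun _ : List ℕ => rho m hm) v
  rw [← hmap] at h
  exact ae_of_ae_map (measurable_pi_apply v).aemeasurable h

/-- what we use about the environment of either colour -/
theorem fill_shape (m : ℕ) (hm : 2 ≤ m)
    (hW : ∀ σ : ℤ, σ = 1 ∨ σ = -1 → ∀ l : ℕ, ∀ᵐ ω ∂(PP (rho m hm)), ω ∈ WW m σ (l + 1) 2) :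
    IsShape (mkLaw m hm) (Icc (-1) 1) := by
  refine ⟨convex_Icc _ _, isCompact_Icc, ?_, ?_⟩
  · rw [interior_Icc]
    constructor <;> norm_num
  · change ∀ᵐ ω ∂(PP (rho m hm)), _
    have h1 : ∀ᵐ ω ∂(PP (rho m hm)), ∀ l : ℕ, ω ∈ WW m 1 (l + 1) 2 :=
      ae_all_iff.2 (fun l => hW 1 (Or.inl rfl) l)
    have h2 : ∀ᵐ ω ∂(PP (rho m hm)), ∀ l : ℕ, ω ∈ WW m (-1) (l + 1) 2 :=
      ae_all_iff.2 (fun l => hW (-1) (Or.inr rfl) l)
    filter_upwards [env_good m hm, h1, h2] with ω hg hw1 hw2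
    have hY : ∀ u, (ω u).2 = 1 ∨ (ω u).2 = -1 := fun u => (hg u).2
    have hN : ∀ u, (ω u).1 = m := fun u => (hg u).1
    refine shape_of_fill ω ?_ ?_
    · intro v _
      exact abs_le.2 ⟨(pos_bound v ω hY).2, (pos_bound v ω hY).1⟩
    · intro l
      obtain ⟨K, hK⟩ := hit_of_WW m (l + 1) 2 (by positivity) ω hY (hw1 l) (hw2 l)
      refine ⟨K, fun n x hx => ?_⟩
      obtain ⟨w, hw, hl, hp⟩ := hK n x hx
      exact ⟨w, (alive_iff m w ω hN).2 hw, hl, hp⟩

/-! ### the main result -/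

/-- The assertion of Q1 is false in dimension one: there are two reproduction laws with the same
asymptotic shape `A` such that, in the two-type process at `p = 0`, almost surely (whatever the
tie-breaking rule) infinitely many sites are coloured red and only finitely many are coloured blue;
in particular coexistence has probability zero. -/
theorem result : ∃ (Rr Rb : Law) (A : Set ℝ), IsShape Rr A ∧ IsShape Rb A ∧
    (∀ᵐ ω ∂(P0 Rr Rb), ∀ tie : ℤ → Prop,
      (redSites tie ω).Infinite ∧ (blueSites tie ω).Finite) ∧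
    ∀ tie : Env × Env → ℤ → Prop,
      P0 Rr Rb {ω | (redSites (tie ω) ω).Infinite ∧ (blueSites (tie ω) ω).Infinite} = 0 := by
  have h4 : (2 : ℕ) ≤ 4 := by norm_num
  have h2 : (2 : ℕ) ≤ 2 := le_rfl
  have hneg : ∀ σ : ℤ, σ = 1 ∨ σ = -1 → (-σ = 1 ∨ -σ = -1) := by
    rintro σ (rfl | rfl) <;> norm_num
  have hred : ∀ σ : ℤ, σ = 1 ∨ σ = -1 → ∀ᵐ ω ∂(PP (rho 4 h4)), ω ∈ WW 4 σ 1 0 := fun σ hσ =>
    red_WW (rho 4 h4) σ hσ (rho_real 4 h4 σ hσ) (rho_real 4 h4 (-σ) (hneg σ hσ))
  have hmain : ∀ᵐ ω ∂(P0 (mkLaw 4 h4) (mkLaw 2 h2)), ∀ tie : ℤ → Prop,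
      (redSites tie ω).Infinite ∧ (blueSites tie ω).Finite := by
    have hR : ∀ᵐ ω ∂(mkLaw 4 h4).meas, ∃ K : ℕ, ∀ x : ℤ, arrival 0 ω x ≤ (x.natAbs + K : ℕ) := by
      change ∀ᵐ ω ∂(PP (rho 4 h4)), _
      filter_upwards [env_good 4 h4, hred 1 (Or.inl rfl), hred (-1) (Or.inr rfl)] with ω hg hw1 hw2
      obtain ⟨K, hK⟩ := hit_of_WW 4 1 0 one_pos ω (fun u => (hg u).2) hw1 hw2
      refine ⟨K, fun x => ?_⟩
      obtain ⟨w, hw, hl, hp⟩ := hK (x.natAbs + K) x (by
        push_cast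
        linarith)
      have hal : Alive ω w := (alive_iff 4 w ω (fun u => (hg u).1)).2 hw
      refine (iInf₂_le w ⟨hal, by rw [hp]; ring⟩).trans ?_
      exact_mod_cast hl
    have hB : ∀ᵐ ω ∂(mkLaw 2 h2).meas, ∀ k : ℕ, ∃ X : ℕ, ∀ x : ℤ, X ≤ x.natAbs →
        ((x.natAbs + k : ℕ) : ℕ∞) < arrival 1 ω x := by
      change ∀ᵐ ω ∂(PP (rho 2 h2)), _
      filter_upwards [env_good 2 h2,
        blue_lag (rho 2 h2) 1 (Or.inl rfl) (rho_real 2 h2 1 (Or.inl rfl))
          (rho_real 2 h2 (-1) (Or.inr rfl)),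
        blue_lag (rho 2 h2) (-1) (Or.inr rfl) (rho_real 2 h2 (-1) (Or.inr rfl))
          (rho_real 2 h2 (- -1) (Or.inl (by norm_num)))] with ω hg hl1 hl2
      intro k
      obtain ⟨n1, hn1⟩ := hl1 (k + 1)
      obtain ⟨n2, hn2⟩ := hl2 (k + 1)
      refine ⟨n1 + n2 + 1, fun x hx => ?_⟩
      have hY : ∀ u, (ω u).2 = 1 ∨ (ω u).2 = -1 := fun u => (hg u).2
      have hN : ∀ u, (ω u).1 = 2 := fun u => (hg u).1
      have key : ((x.natAbs + k + 1 : ℕ) : ℕ∞) ≤ arrival 1 ω x := by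
        refine le_iInf₂ (fun v hv => ?_)
        obtain ⟨hal, hvx⟩ := hv
        have hlab := (alive_iff 2 v ω hN).1 hal
        have hpb := pos_bound v ω hY
        norm_cast
        by_contra hcon
        push Not at hcon
        rcases le_total 0 (pos ω v) with h0 | h0
        · have hlag := ev_of_path 2 1 (Or.inl rfl) v ω (k + 1) hY hlab (by
            push_cast
            omega)
          exact hn1 (evS_antitone gnext 2 1 (some (k + 1)) (show n1 ≤ v.length by omega) hlag)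
        · have hlag := ev_of_path 2 (-1) (Or.inr rfl) v ω (k + 1) hY hlab (by
            push_cast
            omega)
          exact hn2 (evS_antitone gnext 2 (-1) (some (k + 1)) (show n2 ≤ v.length by omega) hlag)
      refine lt_of_lt_of_le ?_ key
      exact_mod_cast Nat.lt_succ_self _
    have hR' : ∀ᵐ ω ∂(P0 (mkLaw 4 h4) (mkLaw 2 h2)), ∃ K : ℕ, ∀ x : ℤ,
        arrival 0 ω.1 x ≤ (x.natAbs + K : ℕ) := by
      have : IsProbabilityMeasure (mkLaw 2 h2).meas := by unfold Law.meas; infer_instance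
      have : IsProbabilityMeasure (mkLaw 4 h4).meas := by unfold Law.meas; infer_instance
      exact Measure.quasiMeasurePreserving_fst.ae hR
    have hB' : ∀ᵐ ω ∂(P0 (mkLaw 4 h4) (mkLaw 2 h2)), ∀ k : ℕ, ∃ X : ℕ, ∀ x : ℤ, X ≤ x.natAbs →
        ((x.natAbs + k : ℕ) : ℕ∞) < arrival 1 ω.2 x := by
      have : IsProbabilityMeasure (mkLaw 2 h2).meas := by unfold Law.meas; infer_instance
      have : IsProbabilityMeasure (mkLaw 4 h4).meas := by unfold Law.meas; infer_instance
      exact Measure.quasiMeasurePreserving_snd.ae hB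
    filter_upwards [hR', hB'] with ω hr hb
    obtain ⟨K, hK⟩ := hr
    obtain ⟨X, hX⟩ := hb K
    have hlt : ∀ x : ℤ, X ≤ x.natAbs → arrival 0 ω.1 x < arrival 1 ω.2 x := fun x hx =>
      (hK x).trans_lt (hX x hx)
    intro tie
    constructor
    · refine Set.infinite_of_injective_forall_mem (f := fun n : ℕ => ((X + n : ℕ) : ℤ)) ?_ ?_
      · intro a b hab
        simpa using hab
      · intro n
        exact Or.inl (hlt _ (by omega))
    · refine (Set.finite_Icc (-(X : ℤ)) X).subset ?_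
      intro x hx
      by_contra hcon
      have hx' : X ≤ x.natAbs := by
        simp only [Set.mem_Icc, not_and_or, not_le] at hcon
        omega
      have := hlt x hx'
      rcases hx with h | h
      · exact absurd h (not_lt.2 this.le)
      · exact absurd h.1 this.ne
  refine ⟨mkLaw 4 h4, mkLaw 2 h2, Icc (-1) 1, ?_, ?_, hmain, ?_⟩
  · refine fill_shape 4 h4 (fun σ hσ l => (hred σ hσ).mono ?_)
    rintro ω ⟨K, hK⟩
    refine ⟨(l + 1) * K, fun n => ?_⟩
    obtain ⟨v, hv, hl, hp⟩ := hK n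
    refine ⟨v, hv, hl, ?_⟩
    have hl0 : (0 : ℤ) ≤ (l : ℤ) + 1 := by positivity
    have hn0 : (0 : ℤ) ≤ n := Int.natCast_nonneg n
    have := mul_le_mul_of_nonneg_left hp hl0
    push_cast
    linarith
  · exact fill_shape 2 h2 (fun σ hσ l => blue_WW (rho 2 h2) σ hσ (rho_real 2 h2 σ hσ)
      (rho_real 2 h2 (-σ) (hneg σ hσ)) l)
  · intro tie
    refine measure_mono_null ?_ (ae_iff.1 hmain)
    rintro ω ⟨_, hb⟩ hcon
    exact hb (hcon (tie ω)).2

end Pool.Agent.Results.MP_1cd8c4_pr.EqualShapesNoCoexistence
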